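import Mathlib
import Pool.Agent.Lib.MP_6a2c25_an.Defs
import Pool.Agent.Lib.MP_6a2c25_an.Three

set_option autoImplicit false

/-!
# The radial maximal estimate fails below regularity 1/4 on real projective space

Problem MP_6a2c25_an, Q1: for every `d ≥ 2`, for each of the Schrödinger, Boussinesq and beam
equations, every `p ≥ 1` and every `0 ≤ α < 1/4` the radial maximal estimate fails on `P^d(ℝ)`;
it fails already for finite sums of radial eigenfunctions of the Laplace-Beltrami operator.
-/

namespace Pool.Agent.Results.MP_6a2c25_an.FailureBelowQuarter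

open Pool.Agent.Lib.MP_6a2c25_an
open scoped ENNReal

/-- **Answer to Q1.** On `P^d(ℝ)`, `d ≥ 2`, the radial maximal estimate for the Schrödinger,
Boussinesq and beam equations fails for all `p ∈ [1, ∞]` and all `0 ≤ α < 1/4`. -/
theorem result : ∀ d : ℕ, 2 ≤ d → ∀ ψ : ℝ → ℝ, (ψ = schrodinger ∨ ψ = boussinesq ∨ ψ = beam) →
    ∀ p : ℝ≥0∞, 1 ≤ p → ∀ α : ℝ, 0 ≤ α → α < 1 / 4 → ¬ FiniteRadialMaximalEstimate d ψ p α :=
  fun d hd ψ hψ p hp α hα0 hα => main d hd ψ hψ p hp α hα0 hα

end Pool.Agent.Results.MP_6a2c25_an.FailureBelowQuarter
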